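import Pool.Agent.H79.OR.Kun

/-!
# MP_db07cb_ag: ordinary primes for products and for systems of equations between read-once formulas

`T : Realizations F` are the data of the cohomology with compact supports `H v n X = H^n_c(X, ℚ_p)` of the
schemes `X` over the number field `F`, as a representation of the Galois group of `F_v`, for the finite places
`v ∣ p` of `F`. `IsRealizationK T ten` lists the known properties which are used, `ten v` is the tensor product
of representations. `OrdAt T v X`: for all `n` the Newton polygon (slopes of the Frobenius of `D_pst`) and
the Hodge polygon of `H v n X` coincide. `IH v n X` is intersection cohomology. For smooth projective `X` and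
all but finitely many `v` these are the polygons of the problem (Katz–Messing, Faltings).

`Common (OrdAt T) K`: for every finite list of schemes in the class `K` there are infinitely many places `v`
such that all members of the list are ordinary at `v`.

The class `Built F n` is the smallest class of separated schemes of finite type over `F` which contains
all affine schemes of dimension at most `n` and is closed under products of affine schemes, closed-open
decompositions (two out of three), isomorphisms, products with the affine line, descent along the
finite étale coverings `s ^ d = u`, `u` a unit, and division by `𝔾_m`. It contains schemes of arbitrary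
dimension.

**Theorem.** Let `Q` be the class of smooth projective varieties over `F` (or any class of smooth proper
varieties in which every variety of dimension at most `n` has a birational model).

(1) For every filter `𝓕` of sets of places (for example the sets of density one, or the sets which have
density one over some finite extension of `F`): the varieties of the class `Q` of dimension at most `n`
are ordinary at `𝓕`-almost all places if and only if the same is true for all schemes of the class
`Built F n`. If this is so, it is in particular true for the following schemes, of arbitrary dimension and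
degree and with arbitrary singularities: the closed subschemes `h(f_1, …, f_r) = 0`, `h ∈ S`, of affine
spaces, where `f_1, …, f_r` are polynomials in disjoint sets of variables given by read-once formulas with
quasi-homogeneous gates in at most `n + 1` variables, and the scheme `S = 0` has dimension at most `n`;
and the closed subschemes of projective spaces given by such equations, if `f_1, …, f_r` are
homogeneous, the elements of `S` are homogeneous for the weights `deg f_i`, and the cone `S = 0` has
dimension at most `n + 1`.

(2) Common ordinary places for the varieties of `Q` of dimension at most `n` exist if and only if they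
exist for the schemes of the class `Built F n`.

(3) If they exist, then Q1 is true for all proper varieties `X`, with arbitrary singularities and of any
dimension, which are images of smooth proper schemes of the class `Built F n`; more precisely for
finitely many such `X` there are infinitely many places `v` at which all `IH^m(X)`, for all `m`, are
ordinary.

The proof: the Newton slopes and the Hodge slopes of a tensor product are the sums of the slopes of the
factors, so the tensor product of two ordinary representations is ordinary; the ordinary
representations are a Serre class. So by the Künneth formula and the exact sequences the schemes which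
are ordinary at `v` have the closure properties of the class `Built`, for every `v`, and the same is
true along a filter. That the class `Built F n` contains the systems in (1) is a theorem of earlier
work on such classes.
-/

set_option autoImplicit false

open CategoryTheory AlgebraicGeometry Pool.Agent.Y116.UV Pool.Agent.H89.Dev Pool.Agent.H79.OR
  Pool.Agent.W5h68.SP Pool.Agent.W5h68.PJ

namespace Pool.Agent.Results.MP_db07cb_ag.BuiltSchemes

variable {F : Type} [Field F]

/-- Intersection cohomology: if `f : Y ⟶ X` is a surjective morphism of proper schemes and `Y` is smooth,
then `IH^m(X)` is a direct factor of `H^m(Y)` (the decomposition theorem). -/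
def IsIntersection (T : Realizations F) (IH : ∀ v, ℤ → Sch F → T.C v) : Prop :=
  ∀ (Y X : Sch F) (f : Y ⟶ X), Smooth Y.hom → IsProper Y.hom → IsProper X.hom → Surjective f.left →
    ∀ v m, IsRetract (IH v m X) (T.H v m Y)

/-- The proper schemes which are images of smooth proper schemes of the class `K`. -/
def ImageOf (K : Sch F → Prop) (X : Sch F) : Prop :=
  IsProper X.hom ∧ ∃ (Y : Sch F) (f : Y ⟶ X), K Y ∧ Smooth Y.hom ∧ IsProper Y.hom ∧ Surjective f.left

/-- **Ordinary primes, products, and systems of equations between read-once formulas.** See the
explanations above. -/
theorem result [CharZero F] (T : Realizations F) {ten : ∀ v, T.C v → T.C v → T.C v}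
    (hT : IsRealizationK T ten) {Q : Sch F → Prop} (hQ : IsClass Q) {n : ℕ} (hM : ModelsIn Q n)
    (IH : ∀ v, ℤ → Sch F → T.C v) (hIH : IsIntersection T IH) :
    (∀ 𝓕 : Filter T.Place,
      ((∀ X : Sch F, (Q X ∧ topologicalKrullDim X.left ≤ n) → ∀ᶠ v in 𝓕, OrdAt T v X) ↔
        ∀ X : Sch F, Pool.Agent.W5h68.BT.Built F n X → ∀ᶠ v in 𝓕, OrdAt T v X) ∧
      ((∀ X : Sch F, (Q X ∧ topologicalKrullDim X.left ≤ n) → ∀ᶠ v in 𝓕, OrdAt T v X) →
        ReadOnceSystems F n (fun X => ∀ᶠ v in 𝓕, OrdAt T v X) ∧
        ProjectiveSystems F n (fun X => ∀ᶠ v in 𝓕, OrdAt T v X))) ∧
    (Common (OrdAt T) (fun X => Q X ∧ topologicalKrullDim X.left ≤ n) ↔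
      Common (OrdAt T) (Pool.Agent.W5h68.BT.Built F n)) ∧
    (Common (OrdAt T) (fun X => Q X ∧ topologicalKrullDim X.left ≤ n) →
      ∀ L : List (Sch F), (∀ X ∈ L, ImageOf (Pool.Agent.W5h68.BT.Built F n) X) →
        {v | ∀ X ∈ L, ∀ m : ℤ, (T.slopes v).Ordinary (IH v m X)}.Infinite) := by
  have key := filter_iff hT hQ hM
  have hcom : Common (OrdAt T) (fun X => Q X ∧ topologicalKrullDim X.left ≤ n) ↔
      Common (OrdAt T) (Pool.Agent.W5h68.BT.Built F n) := common_iff key
  refine ⟨fun 𝓕 => ⟨key 𝓕, fun h => ?_⟩, hcom, fun h L hL => ?_⟩
  · have h2 := (key 𝓕).mp h
    exact ⟨fun r σ f hf S hS => h2 _ (Pool.Agent.W5h68.BT.readOnce_built n r σ f hf S hS),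
      fun r σ f w a1 a2 a3 S a4 a5 X i a6 a7 =>
        h2 _ (Pool.Agent.W5h68.BT.projective_built n r σ f w a1 a2 a3 S a4 a5 X i a6 a7)⟩
  · have h0 : ∀ X : Sch F, ∃ Y : Sch F, X ∈ L → (Pool.Agent.W5h68.BT.Built F n Y ∧ Smooth Y.hom ∧
        IsProper Y.hom ∧ ∃ f : Y ⟶ X, Surjective f.left) := by
      intro X
      by_cases hX : X ∈ L
      · obtain ⟨_, Y, f, h1, h2, h3, h4⟩ := hL X hX
        exact ⟨Y, fun _ => ⟨h1, h2, h3, f, h4⟩⟩
      · exact ⟨X, fun h => absurd h hX⟩
    choose Y hY using h0
    have h1 := hcom.mp h (L.map Y) (fun Z hZ => by
      obtain ⟨X, hX, rfl⟩ := List.mem_map.mp hZ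
      exact (hY X hX).1)
    refine h1.mono fun v hv X hX m => ?_
    obtain ⟨_, h2, h3, f, h4⟩ := hY X hX
    obtain ⟨s, r, hsr⟩ := hIH (Y X) X f h2 h3 (hL X hX).1 h4 v m
    have hm : Mono s := mono_of_mono_fac hsr
    exact (serre_ordinary (T.slopes v)).of_mono s (hv _ (List.mem_map_of_mem hX) m)

end Pool.Agent.Results.MP_db07cb_ag.BuiltSchemes
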