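import Pool.Agent.H95.WC.Ord

/-!
# Ordinary places and coverings of affine spaces

Let `k` be a number field, `𝒜` the category of Chow motives over `k` with rational coefficients, `T l` its
Tate objects, `h(X)` the motive of the smooth projective variety `X`. For a motive `M`, a degree `j` and a
place `v` let `D.slopes M j v` be the slopes of the Newton polygon of `H^j(M)` at `v` and `D.weights M j`
the Hodge-Tate weights of `H^j(M)`; `v` is ordinary for `H^j(M)` if they are equal.

To every separated scheme `X` of finite type over `k` belongs its weight complex with compact support
`W(X)` (Gillet and Soulé, Bondarko), a bounded complex of Chow motives up to homotopy; for smooth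
projective `X` it is the motive of `X` in degree zero. Hypotheses `IsFlatWeightComplex`, `HasCoverings`:
there are distinguished triangles for closed-open decompositions, `W` of an affine bundle is a Tate twist
of `W` of the base, and the same holds for flat morphisms with affine spaces as fibres (flat pull-back and
localization), `W` of an open and closed subscheme of `X` is a direct factor of `W(X)`, `W(Spec A)` is a
retract of a shift of `W(𝔾_m × Spec A)` and of the weight complexes of the coverings `s ^ d = u`, `u` a
unit, and `W(Spec k)` is the unit object. For a class `R` of motives a complex is `Null R` if it is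
contractible modulo the morphisms which factor through motives in `R`; a bounded complex of motives in
`R` is an example.

Let `CBuilt n` be the smallest class of schemes over `k` which contains all separated schemes of finite
type of dimension at most `n` and is closed under closed-open decompositions (two out of three), certain
affine bundles (in both directions), division by `𝔾_m` and descent along the cyclic coverings
`s ^ d = u`, and which contains with `Spec A` and the closed subscheme `f = 0` of `Spec A` the covering
`∏_{c ∈ S} (w - c) = ∑ x_l f_l` of `𝔸^m_A`, for finite non-empty sets `S ⊆ k`, and conversely, if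
`|S| ≥ 2`, with `Spec A` and the covering the closed subscheme `f = 0`. There is no restriction on the
dimension of the schemes in this class.

For polynomials `f_1, …, f_m` in the variables `z_1, …, z_N` let `zeroS f` be the closed subscheme
`f_1 = … = f_m = 0` of the affine space, and `covS S f` the covering `∏_{c ∈ S} (w - c) = ∑ x_l f_l(z)` of
the affine space with the coordinates `z_1, …, z_N, x_1, …, x_m`. For a trilinear form
`t(x, y, z) = ∑ t_ijl x_i y_j z_l` the polynomials `bq t` are the bilinear forms `∑ t_ijl x_i y_j`; so
`covS {α, β} (bq t)` is the double covering `(w - α)(w - β) = t(x, y, z)`. We show: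

1. All these coverings are smooth over `k`; and the class `CBuilt n` contains the covering
   `∏_{c ∈ S} (w - c) = t(x, y, z)` if there are at most `n + 2` variables `z`, and the covering
   `∏_{c ∈ S} (w - c) = ∑ x_l f_l(z)` if there are at most `n + 1` variables `z_i`, or if the scheme `f = 0`
   has dimension at most `n`, or if `f_1, …, f_(n+1)` have degree at most two and all other `f_l` degree
   at most one.
2. Let `M` be a motive obtained by sums, Tate twists and direct summands from the motives of smooth
   projective varieties in `CBuilt n`, of any dimension, and let `V` be a direct summand of `H^j(M)`, for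
   example `V = IH^j(Y)` for a projective variety `Y` with a resolution of singularities `X` in
   `CBuilt n` and `M = h(X)`. There are finitely many smooth projective varieties `X_1, …, X_r` of
   dimension at most `n` and degrees `i_1, …, i_r` such that a place which is ordinary for all
   `H^{i_a}(X_a)` is ordinary for `V`, with finitely many exceptions.
3. So common ordinary places for all finite families of smooth projective varieties of dimension at most
   `n` and common ordinary places for all finite families of smooth projective varieties in `CBuilt n`
   are equivalent. They are also equivalent to common ordinary places for the motives which occur in the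
   weight complexes of all schemes in `CBuilt n`.
4. Let `S ⊆ k` be a fixed finite set with at least two elements. Common ordinary places for all finite
   families of smooth projective varieties of dimension at most `n` are equivalent to common ordinary
   places for the motives which occur in the weight complexes of the coverings
   `∏_{c ∈ S} (w - c) = t(x, y, z)`, for all trilinear forms `t` over `k` with at most `n + 2` variables `z`.
5. The same is true along every filter `𝓕` of sets of places, for example for the sets of density one:
   if `H^i(X)` is ordinary along `𝓕` (the set of ordinary places is in `𝓕`) for all smooth projective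
   varieties of dimension at most `n` then also for all smooth projective varieties in `CBuilt n`; this is
   equivalent to the statement that the weight complexes of all schemes in `CBuilt n` are null modulo the
   motives which are ordinary along `𝓕`, and to the same statement for the coverings in 4.

By 4 question Q1 for the smooth projective varieties of all dimensions is equivalent to the existence of
common ordinary places for the smooth double coverings `w ^ 2 = 1 + t(x, y, z)` of affine spaces.
-/

set_option autoImplicit false

open CategoryTheory Limits MonoidalCategory AlgebraicGeometry Filter NumberField IsDedekindDomain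
  Pool.Agent.Y116.UV Pool.Agent.W5h93.EX Pool.Agent.W5h93.WC Pool.Agent.W5h68.CP Pool.Agent.H91.QS
  Pool.Agent.H95.WC

universe v u

namespace Pool.Agent.Results.MP_db07cb_ag.CoveringsOfAffineSpaces

/-- **Ordinary places and coverings of affine spaces.** See the explanations above. -/
theorem result {k : Type} [Field k] [NumberField k] {𝒜 : Type u} [Category.{v} 𝒜] [Preadditive 𝒜]
    [HasZeroObject 𝒜] [HasBinaryBiproducts 𝒜] [IsIdempotentComplete 𝒜] [MonoidalCategory 𝒜]
    [MonoidalPreadditive 𝒜] {T : ℤ → 𝒜}
    -- the weight complexes
    {W : Sch k → HomotopyCategory 𝒜 (ComplexShape.up ℤ)} (hW : IsFlatWeightComplex T W)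
    (hc : HasCoverings W) {Q : Sch k → Prop} (hQ : IsClass Q) (h : Sch k → 𝒜)
    (hh : ∀ X, Q X → Nonempty (W X ≅ cpx (h X)))
    -- the slopes and the Hodge-Tate weights
    (D : MotSlopes 𝒜 (HeightOneSpectrum (𝓞 k))) (hD : D.IsRealization T) :
    -- 1.
    CovMembers k ∧
    -- 2. - 4.
    (∀ n, ModelsIn Q n →
      (∀ M, Gen T h (fun X => Q X ∧ CBuilt n X) M → ∀ j s w, D.IsSummand M j s w →
        ∃ L : List (Sch k × ℤ), (∀ x ∈ L, Q x.1 ∧ topologicalKrullDim x.1.left ≤ n) ∧
          ∀ᶠ v in cofinite, (∀ x ∈ L, D.Ord (h x.1) x.2 v) → s v = w) ∧
      (D.HasCommon (Gen T h fun X => Q X ∧ topologicalKrullDim X.left ≤ n) ↔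
        D.HasCommon (Gen T h fun X => Q X ∧ CBuilt n X)) ∧
      (D.HasCommon (Gen T h fun X => Q X ∧ topologicalKrullDim X.left ≤ n) ↔
        ∃ R : 𝒜 → Prop, D.HasCommon R ∧ ∀ X : Sch k, CBuilt n X → Null R (W X).as) ∧
      ∀ S : Finset k, 2 ≤ S.card →
        (D.HasCommon (Gen T h fun X => Q X ∧ topologicalKrullDim X.left ≤ n) ↔
          ∃ R : 𝒜 → Prop, D.HasCommon R ∧
            FormCoverings S (n + 2) fun X => Null R (W X).as)) ∧
    -- 5.
    ∀ 𝓕 : Filter (HeightOneSpectrum (𝓞 k)), 𝓕 ≤ cofinite →
      CovReduces Q (fun X => D.OrdAlong 𝓕 (h X)) (fun X => Null (D.OrdAlong 𝓕) (W X).as) := by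
  refine ⟨covMembers, fun n hM => ⟨fun _ hG _ _ _ hs => cord_finite hD hW hc hQ hh hM hG hs,
      cord_common_iff hD hW hc hQ hh hM, cord_null_iff hD hW hc hQ hh hM, fun S hS =>
        ⟨fun h1 => ?_, cord_coverings hD hW hc hQ hh hS⟩⟩,
    fun _ hF => cord_filter hD hW hc hQ hh hF⟩
  obtain ⟨R, hR, h2⟩ := (cord_null_iff hD hW hc hQ hh hM).mp h1
  exact ⟨R, hR, fun a b c t ht =>
    h2 _ ((covMembers (k := k)).forms n S (Finset.card_pos.mp (by omega)) a b c t ht)⟩

end Pool.Agent.Results.MP_db07cb_ag.CoveringsOfAffineSpaces
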