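import Pool.Agent.H9.LG.Ord

/-!
# Ordinary places and labelled graphs of maximal degree three

Let `k` be a number field, `𝒜` the category of Chow motives over `k` with rational coefficients, `T l` its
Tate objects, `h(X)` the motive of the smooth projective variety `X`. For a motive `M`, a degree `j` and a
place `v` let `D.slopes M j v` be the slopes of the Newton polygon of `H^j(M)` at `v` and `D.weights M j`
the Hodge-Tate weights of `H^j(M)`; `v` is ordinary for `H^j(M)` if they are equal. The standard properties
are collected in `IsRealization`.

To every separated scheme `X` of finite type over `k` belongs its weight complex with compact support
`W(X)` (Gillet and Soulé, Bondarko), a bounded complex of Chow motives up to homotopy; for smooth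
projective `X` it is the motive of `X` in degree zero. Hypotheses `IsWeightComplex`, `HasFiniteCovers`:
there are distinguished triangles for closed-open decompositions, `W` of an affine bundle is a Tate twist
of `W` of the base, `W(Spec A)` is a retract of a shift of `W(𝔾_m × Spec A)` and of the weight complexes of
the finite free coverings of `Spec A`, and `W(Spec k)` is the unit object. `HasAlterations` is the theorem
of de Jong for the class `Q` of smooth projective varieties (here of characteristic zero: of Hironaka).
For a class `R` of motives a complex is `Null R` if it is contractible modulo the morphisms which factor
through motives in `R`; a bounded complex of motives in `R` is an example.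

Let `G` be a finite bipartite graph of maximal degree at most three, whose edges are labelled by elements
of `k` and by variables `x_1, …, x_d` (`LabelledGraph k d`). Its adjacency matrix `G.adj` is a symmetric
matrix of labels and zeros, with at most three elements different from zero in each row, and `G.scheme`
is the open subscheme of the affine space of dimension `d` where this matrix is invertible. (Up to a sign
the determinant is the square of the signed sum over the perfect matchings of `G` of the products of the
labels of the edges.)

**Theorem.** (1) For every `n` the following are equivalent: every finite family of `H^i(X)`, `X` smooth
projective of dimension at most `n` (and of direct summands of sums of Tate twists of these motives) has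
infinitely many common ordinary places; there is a class `R` of motives with common ordinary places such
that the weight complexes of the open subschemes `G.scheme` of the affine space of dimension `n + 1` are
null modulo `R`, for all labelled bipartite graphs `G` of maximal degree at most three with the variables
`x_1, …, x_(n+1)`. If `k = ℚ` it is enough to consider the graphs whose edges are labelled by `1` and by
the variables.
(2) The same equivalence for all smooth projective varieties, and the graphs with any number of variables.
(3) For every filter `𝓕` of sets of places which contains all cofinite sets (for example the sets of
density one, or the supersets of a given infinite set with finitely many exceptions), and every `n`: the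
`H^i(X)` are ordinary along `𝓕` (the set of ordinary places is in `𝓕`) for all smooth projective varieties
`X` of dimension at most `n` if and only if the weight complexes of the `G.scheme` are null modulo the
motives which are ordinary along `𝓕`, for the labelled graphs `G` with `n + 1` variables. For each `X`
finitely many labelled graphs with `n + 1` variables are enough, the same ones for all `𝓕`.

For curves (`n = 1`, that is for abelian varieties, where the question is open) there are two variables
`x_1, x_2`, and the schemes are open subschemes of the affine plane.

The construction of matrices with at most three elements different from zero in each row and column, with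
a given polynomial as determinant (a sparse form of the theorem of Valiant) is in the starting library
(`MP_fc2ced_ag.SparseLinearSections`); the graph is the bipartite graph of such a matrix.
-/

set_option autoImplicit false

open CategoryTheory Limits MonoidalCategory AlgebraicGeometry Filter NumberField IsDedekindDomain
  Pool.Agent.Y116.UV Pool.Agent.W5h93.EX Pool.Agent.W5h93.WC Pool.Agent.H91.QS Pool.Agent.H9.CD
  Pool.Agent.H9.LG

universe v u

namespace Pool.Agent.Results.MP_db07cb_ag.LabelledGraphs

/-- **Ordinary places and labelled graphs of maximal degree three.** See the explanations above. -/
theorem result {k : Type} [Field k] [NumberField k] {𝒜 : Type u} [Category.{v} 𝒜] [Preadditive 𝒜]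
    [HasZeroObject 𝒜] [HasBinaryBiproducts 𝒜] [IsIdempotentComplete 𝒜] [MonoidalCategory 𝒜]
    [MonoidalPreadditive 𝒜] {T : ℤ → 𝒜}
    -- the weight complexes
    {W : Sch k → HomotopyCategory 𝒜 (ComplexShape.up ℤ)} (hW : IsWeightComplex T W)
    (hc : HasFiniteCovers W) {Q : Sch k → Prop} (hQ : IsClass Q) (hA : HasAlterations Q)
    (h : Sch k → 𝒜) (hh : ∀ X, Q X → Nonempty (W X ≅ cpx (h X)))
    -- the slopes and the Hodge-Tate weights
    (D : MotSlopes 𝒜 (HeightOneSpectrum (𝓞 k))) (hD : D.IsRealization T) :
    -- (1), (2)
    CommonGraphs D T W Q h ∧
    -- (3)
    GraphsDecide (Θ := {𝓕 : Filter (HeightOneSpectrum (𝓞 k)) // 𝓕 ≤ cofinite}) Q
      (fun 𝓕 X => D.OrdAlong 𝓕.1 (h X)) (fun 𝓕 X => Null (D.OrdAlong 𝓕.1) (W X).as) :=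
  ⟨commonGraphs hD hW hc hQ hA hh, ord_graphs hD hW hc hQ hA hh⟩

end Pool.Agent.Results.MP_db07cb_ag.LabelledGraphs
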