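import Pool.Agent.H91.QS.Ord

/-!
# Ordinary places and systems of quadratic equations

Let `k` be a number field, `𝒜` the category of Chow motives over `k` with rational coefficients, `T l` its
Tate objects, `h(X)` the motive of the smooth projective variety `X`. For a motive `M`, a degree `j` and a
place `v` let `D.slopes M j v` be the slopes of the Newton polygon of `H^j(M)` at `v` and `D.weights M j`
the Hodge-Tate weights of `H^j(M)`; `v` is ordinary for `H^j(M)` if they are equal.

To every separated scheme `X` of finite type over `k` belongs its weight complex with compact support
`W(X)` (Gillet and Soulé, Bondarko), a bounded complex of Chow motives up to homotopy; for smooth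
projective `X` it is the motive of `X` in degree zero. Hypotheses `IsWeightComplex`, `HasCoverings`: there
are distinguished triangles for closed-open decompositions, `W` of an affine bundle is a Tate twist of `W`
of the base, `W(Spec A)` is a retract of a shift of `W(𝔾_m × Spec A)` and of the weight complexes of the
coverings `s ^ d = u`, `u` a unit, and `W(Spec k)` is the unit object. For a class `S` of motives a complex
is `Null S` if it is contractible modulo the morphisms which factor through motives in `S`; a bounded
complex of motives in `S` is an example.

Let `Built k n` be the smallest class of schemes which contains the affine schemes of dimension at most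
`n` and is closed under closed-open decompositions (two out of three), affine bundles (in both
directions), division by `𝔾_m` and descent along the coverings `s ^ d = u`. We show:

1. `Built k n` contains all schemes given by `c + 1` quadratic equations and any number of linear
   equations in any number of variables over an affine base `Spec A`, if `dim A + c ≤ n`. It contains all
   closed subschemes of projective spaces which are the intersection of `n + 1` quadrics and hyperplanes.
2. Let `M` be a motive obtained by sums, Tate twists and direct summands from the motives of smooth
   projective varieties in `Built k n`, of any dimension, and let `V` be a direct summand of `H^j(M)`, for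
   example `V = IH^j(Y)` for a projective variety `Y` with a resolution of singularities `X` in
   `Built k n` and `M = h(X)`. There are finitely many smooth projective varieties `X_1, …, X_r` of
   dimension at most `n` and degrees `i_1, …, i_r` such that a place which is ordinary for all
   `H^{i_a}(X_a)` is ordinary for `V`, with finitely many exceptions.
3. So common ordinary places for all finite families of smooth projective varieties of dimension at most
   `n` and common ordinary places for all finite families of smooth projective varieties in `Built k n`
   are equivalent. Then there are also common ordinary places for the motives which occur in the weight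
   complexes of all schemes in `Built k n`, in particular for those of the systems of `n + 1` quadratic
   equations in any number of variables.
4. If there are common ordinary places for the motives which occur in the weight complexes of the affine
   schemes given by `n + 2` quadratic equations then there are common ordinary places for the smooth
   projective varieties of dimension at most `n`.
5. The same is true along every filter `𝓕` of sets of places, for example for the sets of density one:
   if `H^i(X)` is ordinary along `𝓕` (the set of ordinary places is in `𝓕`) for all smooth projective
   varieties of dimension at most `n` then also for all smooth projective varieties in `Built k n`; this is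
   equivalent to the statement that the weight complexes of all schemes in `Built k n` are null modulo the
   motives which are ordinary along `𝓕`; and it follows if this is true for the affine schemes given by
   `n + 2` quadratic equations.

By 3 and 4 question Q1 for the smooth projective varieties of all dimensions is equivalent to the
existence of common ordinary places for the systems of quadratic equations, one number of equations at a
time and with the precise relation of this number and the dimension.
-/

set_option autoImplicit false

open CategoryTheory Limits MonoidalCategory AlgebraicGeometry Filter NumberField IsDedekindDomain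
  Pool.Agent.Y116.UV Pool.Agent.W5h93.EX Pool.Agent.W5h93.WC Pool.Agent.W5h68.CP Pool.Agent.H91.QS

universe v u

namespace Pool.Agent.Results.MP_db07cb_ag.QuadraticSystems

/-- **Ordinary places and systems of quadratic equations.** See the explanations above. -/
theorem result {k : Type} [Field k] [NumberField k] {𝒜 : Type u} [Category.{v} 𝒜] [Preadditive 𝒜]
    [HasZeroObject 𝒜] [HasBinaryBiproducts 𝒜] [IsIdempotentComplete 𝒜] [MonoidalCategory 𝒜]
    [MonoidalPreadditive 𝒜] {T : ℤ → 𝒜}
    -- the weight complexes
    {W : Sch k → HomotopyCategory 𝒜 (ComplexShape.up ℤ)} (hW : IsWeightComplex T W)
    (hc : HasCoverings W) {Q : Sch k → Prop} (hQ : IsClass Q) (h : Sch k → 𝒜)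
    (hh : ∀ X, Q X → Nonempty (W X ≅ cpx (h X)))
    -- the slopes and the Hodge-Tate weights
    (D : MotSlopes 𝒜 (HeightOneSpectrum (𝓞 k))) (hD : D.IsRealization T) :
    -- 1.
    (∀ n, AffineQuadrics k n (Built k n) ∧ ProjectiveQuadrics k n (Built k n)) ∧
    -- 2. - 3.
    (∀ n, ModelsIn Q n →
      (∀ M, Gen T h (fun X => Q X ∧ Built k n X) M → ∀ j s w, D.IsSummand M j s w →
        ∃ L : List (Sch k × ℤ), (∀ x ∈ L, Q x.1 ∧ topologicalKrullDim x.1.left ≤ n) ∧
          ∀ᶠ v in cofinite, (∀ x ∈ L, D.Ord (h x.1) x.2 v) → s v = w) ∧
      (D.HasCommon (Gen T h fun X => Q X ∧ topologicalKrullDim X.left ≤ n) ↔
        D.HasCommon (Gen T h fun X => Q X ∧ Built k n X)) ∧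
      (D.HasCommon (Gen T h fun X => Q X ∧ topologicalKrullDim X.left ≤ n) →
        ∃ S : 𝒜 → Prop, D.HasCommon S ∧ ∀ X : Sch k, Built k n X → Null S (W X).as)) ∧
    -- 4.
    (∀ n, (∃ S : 𝒜 → Prop, D.HasCommon S ∧
        QuadraticSystems k (n + 2) fun X => Null S (W X).as) →
      D.HasCommon (Gen T h fun X => Q X ∧ topologicalKrullDim X.left ≤ n)) ∧
    -- 5.
    ∀ 𝓕 : Filter (HeightOneSpectrum (𝓞 k)), 𝓕 ≤ cofinite →
      QuadReduces Q (fun X => D.OrdAlong 𝓕 (h X)) (fun X => Null (D.OrdAlong 𝓕) (W X).as) :=
  ⟨fun n => ⟨affineQuadrics_built two_ne_zero n, projectiveQuadrics_built two_ne_zero n⟩,
    fun _ hM => ⟨fun _ hG _ _ _ hs => ord_finite hD hW hc hQ hh hM hG hs,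
      ord_common_iff hD hW hc hQ hh hM, fun h1 => ord_systems hD hW hc hQ hh hM h1⟩,
    fun _ h1 => ord_of_systems hD hW hc hQ hh h1, fun _ hF => ord_filter hD hW hc hQ hh hF⟩

end Pool.Agent.Results.MP_db07cb_ag.QuadraticSystems
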